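import Pool.Agent.Lib.MP_f76da2_an.Large

/-!
# Modulus separation of the zeros of `P_n(z, w) = ∑ C(n,k) z^k w^(k(n-k))`

For all `n` and all complex `w` with `|w| > 1` and `w^2` real (`w` real or purely imaginary) the
zeros are simple and separated in modulus by a factor of at least `|w|^2`.
-/

set_option autoImplicit false

namespace Pool.Agent.Results.MP_f76da2_an.RealSquare

open Finset

/-- The polynomial `P_n(z, w) = ∑_{k=0}^n C(n,k) z^k w^(k(n-k))` in the variable `z`. -/
noncomputable def P (n : ℕ) (w : ℂ) : Polynomial ℂ :=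
  ∑ k ∈ range (n + 1),
    Polynomial.C ((n.choose k : ℂ) * w ^ (k * (n - k))) * Polynomial.X ^ k

/-- The conclusion of the conjecture for `n` and `w`: there are `n` zeros, all simple, and in every
enumeration `z_1, ..., z_n` of the zeros (with multiplicity) with `|z_1| ≤ ... ≤ |z_n|` one has
`|z_(j+1)| ≥ |w|^2 |z_j|` for all `1 ≤ j ≤ n - 1`. -/
def Separated (n : ℕ) (w : ℂ) : Prop :=
  (P n w).roots.card = n ∧ (P n w).roots.Nodup ∧
    ∀ z : Fin n → ℂ, Multiset.map z univ.val = (P n w).roots →
      (∀ i j, i ≤ j → ‖z i‖ ≤ ‖z j‖) →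
        ∀ i j : Fin n, (i : ℕ) + 1 = j → ‖w‖ ^ 2 * ‖z i‖ ≤ ‖z j‖

/-- The conclusion of the conjecture holds for all `n` and all complex `w` with `|w| > 1` whose
square is real, that is for all real and all purely imaginary `w` outside the unit disc. -/
theorem result (n : ℕ) (w : ℂ) (hw : 1 < ‖w‖) (him : (w ^ 2).im = 0) : Separated n w :=
  Pool.Agent.Lib.MP_f76da2_an.separated_real hw him

end Pool.Agent.Results.MP_f76da2_an.RealSquare
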